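import Pool.Agent.Q208.MDFin

/-!
New Steiner systems `S(n,q,2)` with the block sizes `q = 10, ..., 16, 19, 20`.

For the listed primes `p` a family of one or two base blocks, each invariant under a group of roots
of unity of odd order (up to the point `0`), was found by computer; the differences of the blocks
represent the classes of the nonzero residues modulo a group of power residues, so that the
multiples of the base blocks by representatives of power residues, and all their translates, form
a system `S(p,q,2)`.  With transversal designs over the prime field the order of any system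
`S(u,q,2)` can be multiplied by such a prime.
-/

set_option autoImplicit false

namespace Pool.Agent.Results.MP_409a13_co.BlockSizesTenToTwenty

/-- a Steiner system `S(n,q,2)` exists -/
def Steiner (n q : ℕ) : Prop :=
  ∃ B : Finset (Finset (Fin n)), (∀ b ∈ B, b.card = q) ∧
    ∀ T : Finset (Fin n), T.card = 2 → ∃! b, b ∈ B ∧ T ⊆ b

/-- `S(p,q,2)` exists, and `S(u p,q,2)` exists whenever `S(u,q,2)` exists. -/
def Seed (q p : ℕ) : Prop := Steiner p q ∧ ∀ u : ℕ, Steiner u q → Steiner (u * p) q

/-- primes for the block sizes -/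
def primes : List (ℕ × List ℕ) :=
  [(10, [1171, 1621, 2521, 2791, 2971, 3061, 3331, 3511, 3691, 4051, 4231, 4591, 4861]),
    (11, [10781, 12211, 12541, 14081, 14411, 14741, 14851, 15401, 16061, 19031, 19141, 21011, 21341,
      22111, 22441, 23321, 23761, 24091, 24971, 25411, 27611, 32341, 32561, 34651, 34981, 35201,
      35311, 35531, 38501, 38611, 39161, 40151, 40591, 41801, 42461, 42571, 43891, 44221, 45541,
      46751, 47521, 47741, 48731, 49171, 49391, 49831, 50821, 51151, 51481, 52691, 53791, 54121,
      55001, 55441, 56101, 57641, 58411, 58741, 59951]),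
    (13, [8737, 9829, 14197, 15601, 16069, 16381, 16693, 18097, 19813]),
    (14, [1093, 16381, 42043, 61153, 67523, 72073, 82811, 84449, 95369, 105379, 107927, 108109,
      123397, 124853, 127219, 130859, 131041, 135409, 140869, 141233, 142871, 148331, 149969,
      150697, 153427, 156703, 161071, 162527, 166349, 168533, 169079, 178361, 178907, 179089,
      179453, 185641, 186733, 194377, 195469, 196561, 199109]),
    (15, [13441, 27091, 41161, 45361, 46411, 55021, 57751, 62581, 65101, 66571, 71821, 72661, 74131,
      74761, 76231, 80221, 84631, 89041, 89671, 90931, 93241, 93871, 94291, 95971, 96181, 97231,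
      97441, 97861, 99961, 101641, 102061, 102481, 104161, 105211, 107101, 107941, 108571,
      108991, 109201, 110251, 110881, 111091, 111301, 111721, 114031, 114661, 116341, 117811,
      118861, 119701]),
    (16, [62401, 102241, 102481, 114001, 126481, 129121, 150001, 155521, 161521, 172321, 172801,
      176641, 177601, 180241, 183361, 184321, 191281, 196561, 197521]),
    (19, [144667]),
    (20, [131861])]

theorem sub10 (p : ℕ) (hp : p ∈ ([1171, 1621, 2521, 2791, 2971, 3061, 3331, 3511, 3691, 4051, 4231, 4591, 4861] : List ℕ)) :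
    p ∈ Pool.Agent.Q208.MD.tab10.map (fun e => e.2.1) := by
  have h : (([1171, 1621, 2521, 2791, 2971, 3061, 3331, 3511, 3691, 4051, 4231, 4591, 4861] : List ℕ).all fun p =>
      Pool.Agent.Q208.MD.memB p (Pool.Agent.Q208.MD.tab10.map (fun e => e.2.1))) = true := by
    decide +kernel
  exact Pool.Agent.Q208.MD.memB_iff.1 (List.all_eq_true.1 h p hp)

theorem sub11 (p : ℕ) (hp : p ∈ ([10781, 12211, 12541, 14081, 14411, 14741, 14851, 15401, 16061, 19031, 19141, 21011, 21341,
      22111, 22441, 23321, 23761, 24091, 24971, 25411, 27611, 32341, 32561, 34651, 34981, 35201,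
      35311, 35531, 38501, 38611, 39161, 40151, 40591, 41801, 42461, 42571, 43891, 44221, 45541,
      46751, 47521, 47741, 48731, 49171, 49391, 49831, 50821, 51151, 51481, 52691, 53791, 54121,
      55001, 55441, 56101, 57641, 58411, 58741, 59951] : List ℕ)) :
    p ∈ Pool.Agent.Q208.MD.tab11.map (fun e => e.2.1) := by
  have h : (([10781, 12211, 12541, 14081, 14411, 14741, 14851, 15401, 16061, 19031, 19141, 21011, 21341,
      22111, 22441, 23321, 23761, 24091, 24971, 25411, 27611, 32341, 32561, 34651, 34981, 35201,
      35311, 35531, 38501, 38611, 39161, 40151, 40591, 41801, 42461, 42571, 43891, 44221, 45541,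
      46751, 47521, 47741, 48731, 49171, 49391, 49831, 50821, 51151, 51481, 52691, 53791, 54121,
      55001, 55441, 56101, 57641, 58411, 58741, 59951] : List ℕ).all fun p =>
      Pool.Agent.Q208.MD.memB p (Pool.Agent.Q208.MD.tab11.map (fun e => e.2.1))) = true := by
    decide +kernel
  exact Pool.Agent.Q208.MD.memB_iff.1 (List.all_eq_true.1 h p hp)

theorem sub13 (p : ℕ) (hp : p ∈ ([8737, 9829, 14197, 15601, 16069, 16381, 16693, 18097, 19813] : List ℕ)) :
    p ∈ Pool.Agent.Q208.MD.tab13.map (fun e => e.2.1) := by
  have h : (([8737, 9829, 14197, 15601, 16069, 16381, 16693, 18097, 19813] : List ℕ).all fun p =>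
      Pool.Agent.Q208.MD.memB p (Pool.Agent.Q208.MD.tab13.map (fun e => e.2.1))) = true := by
    decide +kernel
  exact Pool.Agent.Q208.MD.memB_iff.1 (List.all_eq_true.1 h p hp)

theorem sub14 (p : ℕ) (hp : p ∈ ([1093, 16381, 42043, 61153, 67523, 72073, 82811, 84449, 95369, 105379, 107927, 108109,
      123397, 124853, 127219, 130859, 131041, 135409, 140869, 141233, 142871, 148331, 149969,
      150697, 153427, 156703, 161071, 162527, 166349, 168533, 169079, 178361, 178907, 179089,
      179453, 185641, 186733, 194377, 195469, 196561, 199109] : List ℕ)) :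
    p ∈ Pool.Agent.Q208.MD.tab14.map (fun e => e.2.1) := by
  have h : (([1093, 16381, 42043, 61153, 67523, 72073, 82811, 84449, 95369, 105379, 107927, 108109,
      123397, 124853, 127219, 130859, 131041, 135409, 140869, 141233, 142871, 148331, 149969,
      150697, 153427, 156703, 161071, 162527, 166349, 168533, 169079, 178361, 178907, 179089,
      179453, 185641, 186733, 194377, 195469, 196561, 199109] : List ℕ).all fun p =>
      Pool.Agent.Q208.MD.memB p (Pool.Agent.Q208.MD.tab14.map (fun e => e.2.1))) = true := by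
    decide +kernel
  exact Pool.Agent.Q208.MD.memB_iff.1 (List.all_eq_true.1 h p hp)

theorem sub15 (p : ℕ) (hp : p ∈ ([13441, 27091, 41161, 45361, 46411, 55021, 57751, 62581, 65101, 66571, 71821, 72661, 74131,
      74761, 76231, 80221, 84631, 89041, 89671, 90931, 93241, 93871, 94291, 95971, 96181, 97231,
      97441, 97861, 99961, 101641, 102061, 102481, 104161, 105211, 107101, 107941, 108571,
      108991, 109201, 110251, 110881, 111091, 111301, 111721, 114031, 114661, 116341, 117811,
      118861, 119701] : List ℕ)) :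
    p ∈ Pool.Agent.Q208.MD.tab15.map (fun e => e.2.1) := by
  have h : (([13441, 27091, 41161, 45361, 46411, 55021, 57751, 62581, 65101, 66571, 71821, 72661, 74131,
      74761, 76231, 80221, 84631, 89041, 89671, 90931, 93241, 93871, 94291, 95971, 96181, 97231,
      97441, 97861, 99961, 101641, 102061, 102481, 104161, 105211, 107101, 107941, 108571,
      108991, 109201, 110251, 110881, 111091, 111301, 111721, 114031, 114661, 116341, 117811,
      118861, 119701] : List ℕ).all fun p =>
      Pool.Agent.Q208.MD.memB p (Pool.Agent.Q208.MD.tab15.map (fun e => e.2.1))) = true := by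
    decide +kernel
  exact Pool.Agent.Q208.MD.memB_iff.1 (List.all_eq_true.1 h p hp)

theorem sub16 (p : ℕ) (hp : p ∈ ([62401, 102241, 102481, 114001, 126481, 129121, 150001, 155521, 161521, 172321, 172801,
      176641, 177601, 180241, 183361, 184321, 191281, 196561, 197521] : List ℕ)) :
    p ∈ Pool.Agent.Q208.MD.tab16.map (fun e => e.2.1) := by
  have h : (([62401, 102241, 102481, 114001, 126481, 129121, 150001, 155521, 161521, 172321, 172801,
      176641, 177601, 180241, 183361, 184321, 191281, 196561, 197521] : List ℕ).all fun p =>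
      Pool.Agent.Q208.MD.memB p (Pool.Agent.Q208.MD.tab16.map (fun e => e.2.1))) = true := by
    decide +kernel
  exact Pool.Agent.Q208.MD.memB_iff.1 (List.all_eq_true.1 h p hp)

theorem sub19 (p : ℕ) (hp : p ∈ ([144667] : List ℕ)) :
    p ∈ Pool.Agent.Q208.MD.tab19.map (fun e => e.2.1) := by
  have h : (([144667] : List ℕ).all fun p =>
      Pool.Agent.Q208.MD.memB p (Pool.Agent.Q208.MD.tab19.map (fun e => e.2.1))) = true := by
    decide +kernel
  exact Pool.Agent.Q208.MD.memB_iff.1 (List.all_eq_true.1 h p hp)

theorem sub20 (p : ℕ) (hp : p ∈ ([131861] : List ℕ)) :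
    p ∈ Pool.Agent.Q208.MD.tab20.map (fun e => e.2.1) := by
  have h : (([131861] : List ℕ).all fun p =>
      Pool.Agent.Q208.MD.memB p (Pool.Agent.Q208.MD.tab20.map (fun e => e.2.1))) = true := by
    decide +kernel
  exact Pool.Agent.Q208.MD.memB_iff.1 (List.all_eq_true.1 h p hp)

/-- (1) All primes `p ≡ 1 mod 90` with `5000 < p < 50000` are seeds for `q = 10`, (2) all primes
`p ≡ 1 mod 132` with `4700 < p < 50000` for `q = 12`, (3) all primes `p ≡ 1 mod 156` with
`20000 < p < 50000` except possibly `28393` for `q = 13`, (4) and so are the primes of the list for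
`q = 10, 11, 13, 14, 15, 16, 19, 20`. (5) If all prime divisors of `n > 1` are seeds for `q`, a Steiner
system `S(n,q,2)` exists. -/
theorem result :
    (∀ p : ℕ, p.Prime → p % 90 = 1 → 5000 < p → p < 50000 → Seed 10 p) ∧
    (∀ p : ℕ, p.Prime → p % 132 = 1 → 4700 < p → p < 50000 → Seed 12 p) ∧
    (∀ p : ℕ, p.Prime → p % 156 = 1 → 20000 < p → p < 50000 → p ≠ 28393 → Seed 13 p) ∧
    (∀ e ∈ primes, ∀ p ∈ e.2, Seed e.1 p) ∧
    ∀ q n : ℕ, 1 < n → (∀ p : ℕ, p.Prime → p ∣ n → Seed q p) → Steiner n q := by
  refine ⟨fun p => Pool.Agent.Q208.MD.cover10, fun p => Pool.Agent.Q208.MD.cover12,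
    fun p => Pool.Agent.Q208.MD.cover13, ?_, fun q => Pool.Agent.Q208.MD.steiner_of_seeds⟩
  intro e he p hp
  simp only [primes, List.mem_cons, List.not_mem_nil, or_false] at he
  rcases he with rfl | rfl | rfl | rfl | rfl | rfl | rfl | rfl
  · exact Pool.Agent.Q208.MD.seeds Pool.Agent.Q208.MD.ok10 (sub10 p hp)
  · exact Pool.Agent.Q208.MD.seeds Pool.Agent.Q208.MD.ok11 (sub11 p hp)
  · exact Pool.Agent.Q208.MD.seeds Pool.Agent.Q208.MD.ok13 (sub13 p hp)
  · exact Pool.Agent.Q208.MD.seeds Pool.Agent.Q208.MD.ok14 (sub14 p hp)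
  · exact Pool.Agent.Q208.MD.seeds Pool.Agent.Q208.MD.ok15 (sub15 p hp)
  · exact Pool.Agent.Q208.MD.seeds Pool.Agent.Q208.MD.ok16 (sub16 p hp)
  · exact Pool.Agent.Q208.MD.seeds Pool.Agent.Q208.MD.ok19 (sub19 p hp)
  · exact Pool.Agent.Q208.MD.seeds Pool.Agent.Q208.MD.ok20 (sub20 p hp)

end Pool.Agent.Results.MP_409a13_co.BlockSizesTenToTwenty
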