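import Pool.Agent.H184R10.Inst
import Pool.Agent.H184R10.Weight
import Pool.Agent.Q208.MDFin

/-!
Steiner systems `S(n,10,2)` with `n` congruent to `46` or `55` modulo `90`.

For `q = 10` the divisibility condition is `n = 1, 10, 46` or `55` modulo `90`.  The first system,
`S(140626,10,2)`, has the points `∞` and `(j,c,x)`, `j, c` modulo `3`, `x` in the field with `5^6`
elements, and the group generated by the translations `x + t`, the multiplications by the elements of
order dividing `651` and `c + 1`: the blocks are the translates of `{∞} ∪ {(j,c,0)}` and the images of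
seven base blocks and of one base block which is a union of two cosets of the prime field.  The base
blocks were found by computer; the kernel checks that their differences represent all classes.
-/

set_option autoImplicit false

namespace Pool.Agent.Results.MP_409a13_co.MixedClassesBlockTen

open Finset

/-- a Steiner system `S(n,q,2)` exists -/
def Steiner (n q : ℕ) : Prop :=
  ∃ B : Finset (Finset (Fin n)), (∀ b ∈ B, b.card = q) ∧
    ∀ T : Finset (Fin n), T.card = 2 → ∃! b, b ∈ B ∧ T ⊆ b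

/-- The orders `9 * 5^(6k) + 1`, `k ≥ 1`, and those obtained from them by the steps `n ↦ 9 n + 1` and
`n ↦ n p`, `p` a prime number between `5000` and `50000` with `p ≡ 1 (mod 90)`. -/
inductive Order : ℕ → Prop
  | base (k : ℕ) : 1 ≤ k → Order (9 * 5 ^ (6 * k) + 1)
  | nine (n : ℕ) : Order n → Order (9 * n + 1)
  | mul (n p : ℕ) : Order n → p.Prime → p % 90 = 1 → 5000 < p → p < 50000 → Order (n * p)

open Pool.Agent.H184R10 in
theorem steiner_iff {n q : ℕ} : Steiner n q ↔ Ex q (Fin n) := by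
  classical
  constructor
  · rintro ⟨B, h1, h2⟩
    refine ⟨{b | b ∈ B}, h1, fun a b hab => ?_⟩
    obtain ⟨c, ⟨hc, hT⟩, hu⟩ := h2 {a, b} (card_pair hab)
    refine ⟨c, ⟨hc, hT (by simp), hT (by simp)⟩, ?_⟩
    rintro d ⟨hd, ha, hb⟩
    refine hu d ⟨hd, ?_⟩
    intro x hx
    rcases mem_insert.1 hx with rfl | hx
    · exact ha
    · rw [mem_singleton.1 hx]
      exact hb
  · rintro ⟨𝓑, h1, h2⟩
    refine ⟨univ.filter (fun b => b ∈ 𝓑), fun b hb => h1 b (mem_filter.1 hb).2, ?_⟩
    intro T hT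
    obtain ⟨a, b, hab, rfl⟩ := card_eq_two.1 hT
    obtain ⟨c, ⟨hc, ha, hb⟩, hu⟩ := h2 a b hab
    have hsub : ∀ d : Finset (Fin n), ({a, b} : Finset (Fin n)) ⊆ d ↔ a ∈ d ∧ b ∈ d := by
      intro d
      rw [insert_subset_iff, singleton_subset_iff]
    refine ⟨c, ⟨mem_filter.2 ⟨mem_univ _, hc⟩, (hsub c).2 ⟨ha, hb⟩⟩, ?_⟩
    rintro d ⟨hd, hd'⟩
    obtain ⟨ha', hb'⟩ := (hsub d).1 hd'
    exact hu d ⟨(mem_filter.1 hd).2, ha', hb'⟩

open Pool.Agent.H184R10 in
theorem of_ex {V : Type} [Fintype V] {n q : ℕ} (h : Ex q V) (hn : Fintype.card V = n) :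
    Steiner n q :=
  steiner_iff.2 (h.congr (Fintype.equivFinOfCardEq hn))

open Pool.Agent.H184R10 in
theorem to_ex {V : Type} [Fintype V] {n q : ℕ} (h : Steiner n q) (hn : Fintype.card V = n) :
    Ex q V :=
  (steiner_iff.1 h).congr (Fintype.equivFinOfCardEq hn).symm

theorem s140626 : Steiner 140626 10 := by
  refine of_ex Pool.Agent.H184R10.ex10 ?_
  rw [Fintype.card_option, Fintype.card_prod, Fintype.card_prod, ZMod.card,
    Pool.Agent.H184R10.card_KK]

theorem base_step (k : ℕ) : Steiner (9 * 5 ^ (6 * (k + 1)) + 1) 10 := by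
  induction k with
  | zero =>
    have : 9 * 5 ^ (6 * (0 + 1)) + 1 = 140626 := by norm_num
    rw [this]
    exact s140626
  | succ k ih =>
    have h1 : Pool.Agent.H184R10.Ex 10 (Option (Fin (9 * 5 ^ (6 * (k + 1))))) :=
      to_ex ih (by rw [Fintype.card_option, Fintype.card_fin])
    have h2 : Pool.Agent.H184R10.Ex 10 (Option (Fin (10 - 1) × Pool.Agent.H184R10.KK)) :=
      to_ex s140626 (by
        rw [Fintype.card_option, Fintype.card_prod, Fintype.card_fin,
          Pool.Agent.H184R10.card_KK])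
    refine of_ex (h1.inflate (by rw [Pool.Agent.H184R10.card_KK]; norm_num) h2) ?_
    rw [Fintype.card_option, Fintype.card_prod, Fintype.card_fin, Pool.Agent.H184R10.card_KK]
    have : 6 * (k + 1 + 1) = 6 * (k + 1) + 6 := by ring
    rw [this, pow_add]
    norm_num
    ring

theorem nine_step {n : ℕ} (h : Steiner n 10) : Steiner (9 * n + 1) 10 := by
  haveI : Fact (Nat.Prime 3) := ⟨by norm_num⟩
  haveI : Fintype (GaloisField 3 2) := Fintype.ofFinite _
  have hc : Fintype.card (GaloisField 3 2) = 9 := by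
    have h := GaloisField.card 3 2 (by norm_num)
    rw [Nat.card_eq_fintype_card] at h
    rw [h]
    norm_num
  have h1 : Pool.Agent.H184R10.Ex 10 (Option (GaloisField 3 2)) :=
    Pool.Agent.H184R10.ex_trivial (by rw [Fintype.card_option, hc])
  refine of_ex ((steiner_iff.1 h).weight (F := GaloisField 3 2) (by rw [hc]) h1) ?_
  rw [Fintype.card_option, Fintype.card_prod, Fintype.card_fin, hc, Nat.mul_comm]

theorem pow_mod (k : ℕ) : 5 ^ (k + 1) % 10 = 5 := by
  induction k with
  | zero => norm_num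
  | succ k ih => rw [pow_succ, Nat.mul_mod, ih]

theorem order_mod {n : ℕ} (h : Order n) : n % 90 = 46 ∨ n % 90 = 55 := by
  induction h with
  | base k hk =>
    left
    obtain ⟨j, rfl⟩ : ∃ j, k = j + 1 := ⟨k - 1, by omega⟩
    have h1 : 5 ^ (6 * (j + 1)) % 10 = 5 := by
      have := pow_mod (6 * j + 5)
      rwa [show 6 * j + 5 + 1 = 6 * (j + 1) by ring] at this
    omega
  | nine n _ ih => omega
  | mul n p _ hp h1 _ _ ih =>
    rw [Nat.mul_mod, h1, Nat.mul_one, Nat.mod_mod]
    exact ih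

theorem order_steiner {n : ℕ} (h : Order n) : Steiner n 10 := by
  induction h with
  | base k hk =>
    obtain ⟨j, rfl⟩ : ∃ j, k = j + 1 := ⟨k - 1, by omega⟩
    exact base_step j
  | nine n _ ih => exact nine_step ih
  | mul n p _ hp h1 h2 h3 ih => exact (Pool.Agent.Q208.MD.cover10 hp h1 h2 h3).2 n ih

theorem condD (n : ℕ) : (∀ i < 2, (10 - i).choose (2 - i) ∣ (n - i).choose (2 - i)) ↔
    (n = 0 ∨ n % 90 = 1 ∨ n % 90 = 10 ∨ n % 90 = 46 ∨ n % 90 = 55) := by
  have h0 : (∀ i < 2, (10 - i).choose (2 - i) ∣ (n - i).choose (2 - i)) ↔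
      (45 ∣ n.choose 2 ∧ 9 ∣ n - 1) := by
    constructor
    · intro h
      have h1 := h 0 (by norm_num)
      have h2 := h 1 (by norm_num)
      have e : Nat.choose 10 2 = 45 := by decide
      simp only [Nat.sub_zero, e] at h1
      simp only [show 10 - 1 = 9 from rfl, show 2 - 1 = 1 from rfl, Nat.choose_one_right] at h2
      exact ⟨h1, h2⟩
    · rintro ⟨h1, h2⟩ i hi
      have e : Nat.choose 10 2 = 45 := by decide
      interval_cases i
      · simp only [Nat.sub_zero, e]
        exact h1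
      · simp only [show 10 - 1 = 9 from rfl, show 2 - 1 = 1 from rfl, Nat.choose_one_right]
        exact h2
  rw [h0]
  rcases Nat.eq_zero_or_pos n with rfl | hn
  · simp
  have h2C : 2 * n.choose 2 = n * (n - 1) := by
    rw [Nat.choose_two_right]
    exact Nat.mul_div_cancel' (Nat.even_mul_pred_self n).two_dvd
  have h45 : 45 ∣ n.choose 2 ↔ 90 ∣ n * (n - 1) := by
    rw [← h2C, show 90 = 2 * 45 by norm_num]
    exact (Nat.mul_dvd_mul_iff_left (by norm_num)).symm
  rw [h45]
  have hdec : n = 90 * (n / 90) + n % 90 := (Nat.div_add_mod n 90).symm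
  have hlt : n % 90 < 90 := Nat.mod_lt _ (by norm_num)
  generalize n / 90 = t at hdec
  generalize hs : n % 90 = s at hdec hlt
  constructor
  · rintro ⟨h1, h2⟩
    right
    obtain ⟨m, hm⟩ := h2
    have hn9 : n = 9 * m + 1 := by omega
    rw [hn9, Nat.add_sub_cancel, show 90 = 10 * 9 by norm_num,
      show (9 * m + 1) * (9 * m) = ((9 * m + 1) * m) * 9 by ring] at h1
    have h3 : 10 ∣ (9 * m + 1) * m := Nat.dvd_of_mul_dvd_mul_right (by norm_num) h1
    have h4 : ((9 * (m % 10) + 1) * (m % 10)) % 10 = 0 := by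
      have := Nat.mod_eq_zero_of_dvd h3
      rw [Nat.mul_mod, Nat.add_mod, Nat.mul_mod 9 m 10] at this
      rw [Nat.mul_mod, Nat.add_mod, Nat.mul_mod 9 (m % 10) 10, Nat.mod_mod]
      exact this
    have h5 : m % 10 < 10 := Nat.mod_lt _ (by norm_num)
    have h6 : m % 10 = 0 ∨ m % 10 = 1 ∨ m % 10 = 5 ∨ m % 10 = 6 := by
      generalize m % 10 = v at h4 h5
      interval_cases v <;> simp_all
    omega
  · intro h
    have hcase : ∃ m, n = 9 * m + 1 ∧ (m % 10 = 0 ∨ m % 10 = 1 ∨ m % 10 = 5 ∨ m % 10 = 6) := by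
      refine ⟨(n - 1) / 9, ?_, ?_⟩ <;> omega
    obtain ⟨m, hm, hv⟩ := hcase
    refine ⟨?_, ⟨m, by omega⟩⟩
    rw [hm, Nat.add_sub_cancel, show 90 = 10 * 9 by norm_num,
      show (9 * m + 1) * (9 * m) = ((9 * m + 1) * m) * 9 by ring]
    refine Nat.mul_dvd_mul_right ?_ 9
    refine Nat.dvd_of_mod_eq_zero ?_
    rw [Nat.mul_mod, Nat.add_mod, Nat.mul_mod 9 m 10]
    rcases hv with hv | hv | hv | hv <;> rw [hv]

theorem result :
    -- all these orders are orders of Steiner systems, and lie in the classes 46 and 55 modulo 90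
    (∀ n : ℕ, Order n → Steiner n 10 ∧ (n % 90 = 46 ∨ n % 90 = 55)) ∧
    -- explicit infinite families in the two classes
    (∀ k : ℕ, 1 ≤ k →
      (Steiner (9 * 5 ^ (6 * k) + 1) 10 ∧ (9 * 5 ^ (6 * k) + 1) % 90 = 46) ∧
      (Steiner (81 * 5 ^ (6 * k) + 10) 10 ∧ (81 * 5 ^ (6 * k) + 10) % 90 = 55)) ∧
    -- the divisibility condition for `q = 10`
    ∀ n : ℕ, (∀ i < 2, (10 - i).choose (2 - i) ∣ (n - i).choose (2 - i)) ↔
      (n = 0 ∨ n % 90 = 1 ∨ n % 90 = 10 ∨ n % 90 = 46 ∨ n % 90 = 55) := by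
  refine ⟨fun n h => ⟨order_steiner h, order_mod h⟩, fun k hk => ?_, fun n => ?_⟩
  · have hb := Order.base k hk
    have h46 : (9 * 5 ^ (6 * k) + 1) % 90 = 46 := by
      obtain ⟨j, rfl⟩ : ∃ j, k = j + 1 := ⟨k - 1, by omega⟩
      have h1 : 5 ^ (6 * (j + 1)) % 10 = 5 := by
        have := pow_mod (6 * j + 5)
        rwa [show 6 * j + 5 + 1 = 6 * (j + 1) by ring] at this
      omega
    have hn := Order.nine _ hb
    have e : 9 * (9 * 5 ^ (6 * k) + 1) + 1 = 81 * 5 ^ (6 * k) + 10 := by ring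
    rw [e] at hn
    exact ⟨⟨order_steiner hb, h46⟩, order_steiner hn, by omega⟩
  · exact condD n

end Pool.Agent.Results.MP_409a13_co.MixedClassesBlockTen
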