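import Pool.Agent.Q208.RDFin

/-!
New Steiner systems `S(q p,q,2)` for the primes `q = 11, 13, 17, 19, 23, 29`.

For the listed primes `p` a block of `q` points of `ZMod q × ZMod p` was found by computer. For every
nonzero residue `a` modulo `q` its differences `(a, d)`, and also its differences `(0, d)`, represent
the classes of the nonzero residues `d` modulo a group of power residues; so the multiples of the
block by representatives `(1, c)` of power residues, all their translates, and the translates of
`ZMod q × {0}` form a system `S(q p,q,2)`. The order of any system `S(u,q,2)` can be multiplied by such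
an order `q p`, and by `q`.
-/

set_option autoImplicit false

namespace Pool.Agent.Results.MP_409a13_co.OrdersDivisibleByBlockSize

/-- a Steiner system `S(n,q,2)` exists -/
def Steiner (n q : ℕ) : Prop :=
  ∃ B : Finset (Finset (Fin n)), (∀ b ∈ B, b.card = q) ∧
    ∀ T : Finset (Fin n), T.card = 2 → ∃! b, b ∈ B ∧ T ⊆ b

/-- `S(n,q,2)` exists, and `S(u n,q,2)` exists whenever `S(u,q,2)` exists. -/
def Seed (q n : ℕ) : Prop := Steiner n q ∧ ∀ u : ℕ, Steiner u q → Steiner (u * n) q

/-- primes for the block sizes -/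
def primes : List (ℕ × List ℕ) :=
  [(11, [311, 331, 491, 571, 631, 911, 971, 991, 1031, 1091, 1171, 1231, 1291, 1511, 1531, 1571,
      1811, 1831, 1871, 2111, 2131, 2311, 2371, 2411, 2531, 2591, 2711, 2731, 2791, 2971, 3011,
      3191, 3271, 3331, 3371, 3391]),
    (13, [157, 229, 709, 733, 1069, 1237]),
    (17, [881, 1297, 1873, 2129, 2801, 2897, 3089, 3121, 3217, 3313, 3697, 3761, 3793, 3889, 4049,
      4241, 4273, 4561, 4657, 4721, 4817, 5009, 5233, 5297, 5393, 5521, 6257, 6449, 6673, 6737,
      6833, 6961, 7057, 7121, 7793, 8017, 8081, 8209, 8273, 8369, 8689, 8753, 8849, 9041, 9137,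
      9521, 9649, 10193, 10289, 10321, 10513, 10993, 11057, 11633, 11953, 12049, 12113, 12241,
      12401, 12497, 12689, 12721, 13009, 13297, 13457, 13553, 13649, 13681, 13841, 13873, 14033,
      14321, 14449, 14737, 14897, 14929, 15121, 15217, 15313, 15377, 15473, 15569, 15601, 15761,
      15889, 16273, 16369, 16433, 16529, 16561, 16657, 17041, 17137, 17393, 17681, 18097, 18257,
      18289, 18353, 18481, 19121, 19249, 19441, 19697, 19793, 19889, 20593, 21649, 21841, 22129,
      22193, 22481, 22769, 22961, 22993, 23857, 24049, 24113, 24593, 24977, 25073, 25873, 25969,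
      26161, 26449, 26641, 26993, 27281, 27953, 28081, 28657, 28753, 28817, 29009, 29297, 30097,
      30161, 30449, 30577, 31121, 31153, 31249, 31793, 32401, 32561, 33457, 33521, 33809, 33937,
      34033, 34513, 34897, 34961, 35089, 35153, 35281, 35569, 36241, 36433, 36529, 36913, 37361,
      37489, 38321, 38449, 38609, 38737, 38993, 39217, 39569, 39953, 40177, 40849, 41201, 41777,
      41809, 41969, 42193, 42577, 42641, 42737, 42929, 44017, 44273, 44657, 44753, 45137, 45233,
      45329, 45361, 45553, 45841, 46769, 47057, 47441, 48337, 48817, 49009, 49169, 49201, 49297,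
      49681, 49937, 50033, 50129, 50321, 50417, 50513, 51217, 52177, 52433, 52529, 52561, 52817,
      53233, 53617, 53681, 54001, 54193, 54577, 54673, 54833, 55057, 55249, 55313, 55697, 56081,
      56209, 56369, 56401, 57041, 57329, 57649, 57713, 58321, 58417, 58481, 59281, 59377, 59441]),
    (19, [3331, 6571, 22123, 23203, 25147, 32491, 33931, 48619, 50023, 50131, 51607, 53479, 54667,
      56827, 63199, 66763, 67411, 67699, 68059, 71263, 72379, 74071, 78823, 85843, 86923, 86959,
      87679, 88471, 88903, 89083, 92899, 97327, 99559]),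
    (23, [48731, 58411]),
    (29, [119701])]

theorem sub11 (p : ℕ) (hp : p ∈ ([311, 331, 491, 571, 631, 911, 971, 991, 1031, 1091, 1171, 1231, 1291, 1511, 1531, 1571,
      1811, 1831, 1871, 2111, 2131, 2311, 2371, 2411, 2531, 2591, 2711, 2731, 2791, 2971, 3011,
      3191, 3271, 3331, 3371, 3391] : List ℕ)) :
    p ∈ Pool.Agent.Q208.RD.rt11.map (fun e => e.1) := by
  have h : (([311, 331, 491, 571, 631, 911, 971, 991, 1031, 1091, 1171, 1231, 1291, 1511, 1531, 1571,
      1811, 1831, 1871, 2111, 2131, 2311, 2371, 2411, 2531, 2591, 2711, 2731, 2791, 2971, 3011,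
      3191, 3271, 3331, 3371, 3391] : List ℕ).all fun p =>
      Pool.Agent.Q208.MD.memB p (Pool.Agent.Q208.RD.rt11.map (fun e => e.1))) = true := by
    decide +kernel
  exact Pool.Agent.Q208.MD.memB_iff.1 (List.all_eq_true.1 h p hp)

theorem sub13 (p : ℕ) (hp : p ∈ ([157, 229, 709, 733, 1069, 1237] : List ℕ)) :
    p ∈ Pool.Agent.Q208.RD.rt13.map (fun e => e.1) := by
  have h : (([157, 229, 709, 733, 1069, 1237] : List ℕ).all fun p =>
      Pool.Agent.Q208.MD.memB p (Pool.Agent.Q208.RD.rt13.map (fun e => e.1))) = true := by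
    decide +kernel
  exact Pool.Agent.Q208.MD.memB_iff.1 (List.all_eq_true.1 h p hp)

theorem sub17 (p : ℕ) (hp : p ∈ ([881, 1297, 1873, 2129, 2801, 2897, 3089, 3121, 3217, 3313, 3697, 3761, 3793, 3889, 4049,
      4241, 4273, 4561, 4657, 4721, 4817, 5009, 5233, 5297, 5393, 5521, 6257, 6449, 6673, 6737,
      6833, 6961, 7057, 7121, 7793, 8017, 8081, 8209, 8273, 8369, 8689, 8753, 8849, 9041, 9137,
      9521, 9649, 10193, 10289, 10321, 10513, 10993, 11057, 11633, 11953, 12049, 12113, 12241,
      12401, 12497, 12689, 12721, 13009, 13297, 13457, 13553, 13649, 13681, 13841, 13873, 14033,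
      14321, 14449, 14737, 14897, 14929, 15121, 15217, 15313, 15377, 15473, 15569, 15601, 15761,
      15889, 16273, 16369, 16433, 16529, 16561, 16657, 17041, 17137, 17393, 17681, 18097, 18257,
      18289, 18353, 18481, 19121, 19249, 19441, 19697, 19793, 19889, 20593, 21649, 21841, 22129,
      22193, 22481, 22769, 22961, 22993, 23857, 24049, 24113, 24593, 24977, 25073, 25873, 25969,
      26161, 26449, 26641, 26993, 27281, 27953, 28081, 28657, 28753, 28817, 29009, 29297, 30097,
      30161, 30449, 30577, 31121, 31153, 31249, 31793, 32401, 32561, 33457, 33521, 33809, 33937,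
      34033, 34513, 34897, 34961, 35089, 35153, 35281, 35569, 36241, 36433, 36529, 36913, 37361,
      37489, 38321, 38449, 38609, 38737, 38993, 39217, 39569, 39953, 40177, 40849, 41201, 41777,
      41809, 41969, 42193, 42577, 42641, 42737, 42929, 44017, 44273, 44657, 44753, 45137, 45233,
      45329, 45361, 45553, 45841, 46769, 47057, 47441, 48337, 48817, 49009, 49169, 49201, 49297,
      49681, 49937, 50033, 50129, 50321, 50417, 50513, 51217, 52177, 52433, 52529, 52561, 52817,
      53233, 53617, 53681, 54001, 54193, 54577, 54673, 54833, 55057, 55249, 55313, 55697, 56081,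
      56209, 56369, 56401, 57041, 57329, 57649, 57713, 58321, 58417, 58481, 59281, 59377, 59441] : List ℕ)) :
    p ∈ Pool.Agent.Q208.RD.rt17.map (fun e => e.1) := by
  have h : (([881, 1297, 1873, 2129, 2801, 2897, 3089, 3121, 3217, 3313, 3697, 3761, 3793, 3889, 4049,
      4241, 4273, 4561, 4657, 4721, 4817, 5009, 5233, 5297, 5393, 5521, 6257, 6449, 6673, 6737,
      6833, 6961, 7057, 7121, 7793, 8017, 8081, 8209, 8273, 8369, 8689, 8753, 8849, 9041, 9137,
      9521, 9649, 10193, 10289, 10321, 10513, 10993, 11057, 11633, 11953, 12049, 12113, 12241,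
      12401, 12497, 12689, 12721, 13009, 13297, 13457, 13553, 13649, 13681, 13841, 13873, 14033,
      14321, 14449, 14737, 14897, 14929, 15121, 15217, 15313, 15377, 15473, 15569, 15601, 15761,
      15889, 16273, 16369, 16433, 16529, 16561, 16657, 17041, 17137, 17393, 17681, 18097, 18257,
      18289, 18353, 18481, 19121, 19249, 19441, 19697, 19793, 19889, 20593, 21649, 21841, 22129,
      22193, 22481, 22769, 22961, 22993, 23857, 24049, 24113, 24593, 24977, 25073, 25873, 25969,
      26161, 26449, 26641, 26993, 27281, 27953, 28081, 28657, 28753, 28817, 29009, 29297, 30097,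
      30161, 30449, 30577, 31121, 31153, 31249, 31793, 32401, 32561, 33457, 33521, 33809, 33937,
      34033, 34513, 34897, 34961, 35089, 35153, 35281, 35569, 36241, 36433, 36529, 36913, 37361,
      37489, 38321, 38449, 38609, 38737, 38993, 39217, 39569, 39953, 40177, 40849, 41201, 41777,
      41809, 41969, 42193, 42577, 42641, 42737, 42929, 44017, 44273, 44657, 44753, 45137, 45233,
      45329, 45361, 45553, 45841, 46769, 47057, 47441, 48337, 48817, 49009, 49169, 49201, 49297,
      49681, 49937, 50033, 50129, 50321, 50417, 50513, 51217, 52177, 52433, 52529, 52561, 52817,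
      53233, 53617, 53681, 54001, 54193, 54577, 54673, 54833, 55057, 55249, 55313, 55697, 56081,
      56209, 56369, 56401, 57041, 57329, 57649, 57713, 58321, 58417, 58481, 59281, 59377, 59441] : List ℕ).all fun p =>
      Pool.Agent.Q208.MD.memB p (Pool.Agent.Q208.RD.rt17.map (fun e => e.1))) = true := by
    decide +kernel
  exact Pool.Agent.Q208.MD.memB_iff.1 (List.all_eq_true.1 h p hp)

theorem sub19 (p : ℕ) (hp : p ∈ ([3331, 6571, 22123, 23203, 25147, 32491, 33931, 48619, 50023, 50131, 51607, 53479, 54667,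
      56827, 63199, 66763, 67411, 67699, 68059, 71263, 72379, 74071, 78823, 85843, 86923, 86959,
      87679, 88471, 88903, 89083, 92899, 97327, 99559] : List ℕ)) :
    p ∈ Pool.Agent.Q208.RD.rt19.map (fun e => e.1) := by
  have h : (([3331, 6571, 22123, 23203, 25147, 32491, 33931, 48619, 50023, 50131, 51607, 53479, 54667,
      56827, 63199, 66763, 67411, 67699, 68059, 71263, 72379, 74071, 78823, 85843, 86923, 86959,
      87679, 88471, 88903, 89083, 92899, 97327, 99559] : List ℕ).all fun p =>
      Pool.Agent.Q208.MD.memB p (Pool.Agent.Q208.RD.rt19.map (fun e => e.1))) = true := by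
    decide +kernel
  exact Pool.Agent.Q208.MD.memB_iff.1 (List.all_eq_true.1 h p hp)

theorem sub23 (p : ℕ) (hp : p ∈ ([48731, 58411] : List ℕ)) :
    p ∈ Pool.Agent.Q208.RD.rt23.map (fun e => e.1) := by
  have h : (([48731, 58411] : List ℕ).all fun p =>
      Pool.Agent.Q208.MD.memB p (Pool.Agent.Q208.RD.rt23.map (fun e => e.1))) = true := by
    decide +kernel
  exact Pool.Agent.Q208.MD.memB_iff.1 (List.all_eq_true.1 h p hp)

theorem sub29 (p : ℕ) (hp : p ∈ ([119701] : List ℕ)) :
    p ∈ Pool.Agent.Q208.RD.rt29.map (fun e => e.1) := by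
  have h : (([119701] : List ℕ).all fun p =>
      Pool.Agent.Q208.MD.memB p (Pool.Agent.Q208.RD.rt29.map (fun e => e.1))) = true := by
    decide +kernel
  exact Pool.Agent.Q208.MD.memB_iff.1 (List.all_eq_true.1 h p hp)

/-- (1) For `q = 11` the orders `11 p` with a prime `p ≡ 11, 31, 71, 91 mod 100`, `3500 < p < 20000`,
`p ≠ 17491` are seeds, (2) for `q = 13` the orders `13 p` with a prime `p ≡ 13, 61 mod 72`,
`1300 < p < 20000`, (3) and so are the orders `q p` for the primes `p` of the list for
`q = 11, 13, 17, 19, 23, 29`. (4) Every prime `q` is a seed for itself. (5) Every product of seeds for `q`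
is the order of a Steiner system `S(n,q,2)`. -/
theorem result :
    (∀ p : ℕ, p.Prime → (p % 100 = 11 ∨ p % 100 = 31 ∨ p % 100 = 71 ∨ p % 100 = 91) → 3500 < p →
      p < 20000 → p ≠ 17491 → Seed 11 (11 * p)) ∧
    (∀ p : ℕ, p.Prime → (p % 72 = 13 ∨ p % 72 = 61) → 1300 < p → p < 20000 → Seed 13 (13 * p)) ∧
    (∀ e ∈ primes, ∀ p ∈ e.2, Seed e.1 (e.1 * p)) ∧
    (∀ q : ℕ, q.Prime → Seed q q) ∧
    ∀ (q : ℕ) (L : List ℕ), L ≠ [] → (∀ n ∈ L, Seed q n) → Steiner L.prod q := by
  refine ⟨fun p => Pool.Agent.Q208.RD.rcover11, fun p => Pool.Agent.Q208.RD.rcover13, ?_,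
    fun q => Pool.Agent.Q208.RD.seed_self, fun q => Pool.Agent.Q208.RD.steiner_prod⟩
  intro e he p hp
  rcases List.mem_cons.1 he with rfl | he
  · exact Pool.Agent.Q208.RD.rseeds (by norm_num) Pool.Agent.Q208.RD.rok11 (sub11 p hp)
  rcases List.mem_cons.1 he with rfl | he
  · exact Pool.Agent.Q208.RD.rseeds (by norm_num) Pool.Agent.Q208.RD.rok13 (sub13 p hp)
  rcases List.mem_cons.1 he with rfl | he
  · exact Pool.Agent.Q208.RD.rseeds (by norm_num) Pool.Agent.Q208.RD.rok17 (sub17 p hp)
  rcases List.mem_cons.1 he with rfl | he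
  · exact Pool.Agent.Q208.RD.rseeds (by norm_num) Pool.Agent.Q208.RD.rok19 (sub19 p hp)
  rcases List.mem_cons.1 he with rfl | he
  · exact Pool.Agent.Q208.RD.rseeds (by norm_num) Pool.Agent.Q208.RD.rok23 (sub23 p hp)
  rcases List.mem_cons.1 he with rfl | he
  · exact Pool.Agent.Q208.RD.rseeds (by norm_num) Pool.Agent.Q208.RD.rok29 (sub29 p hp)
  exact absurd he List.not_mem_nil

end Pool.Agent.Results.MP_409a13_co.OrdersDivisibleByBlockSize
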