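import Pool.Agent.Q109.SA.Main

/-!
# A few large Steiner systems `S(m,q,2)` which separate the primes of `q` decide all larger cases

The numbers `n` satisfying the divisibility condition (D) for `S(n,q,2)` are those with
`n ≡ 1 (mod q-1)` and `n ≡ 0` or `1` modulo each prime power exactly dividing `q`: their residues
modulo `q(q-1)` form a Boolean algebra whose atoms are the prime divisors of `q`, with product as
conjunction and `a ↦ q+1-a` as complement.  The classes reached by polynomially large Steiner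
systems are closed under both operations, and a short decision tree of such systems reaches every
class as soon as the given systems separate the prime divisors of `q`.
-/

set_option autoImplicit false

namespace Pool.Agent.Results.MP_409a13_co.SeparatingSeeds

open H108 Pool.Agent.W865.SS Pool.Agent.Q109.SA

/-- A Steiner system `S(n,q,2)` exists. -/
def Exists2 (n q : ℕ) : Prop :=
  ∃ B : Finset (Finset (Fin n)), (∀ b ∈ B, b.card = q) ∧
    ∀ T : Finset (Fin n), T.card = 2 → ∃! b, b ∈ B ∧ T ⊆ b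

/-- The divisibility condition (D) for `(n,q,2)`. -/
def CondD (n q : ℕ) : Prop := ∀ i < 2, (q - i).choose (2 - i) ∣ (n - i).choose (2 - i)

theorem ex_of_ig {q n : ℕ} (h : IG {q} 1 n 0) : Exists2 n q := steiner_of_ig h

theorem ig_of_ex {q n : ℕ} (h : Exists2 n q) : IG {q} 1 n 0 := by
  obtain ⟨B, h1, h2⟩ := h
  exact ig_of_steiner h1 h2

/-- There is a constant `C` such that:

(1) if `q ≥ 2` and `S` is a nonempty set of numbers `m` with `q^C ≤ m ≤ M` for which `S(m,q,2)`
exists, and any two primes dividing `q` are separated by some `m ∈ S` (exactly one of the two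
divides `m`), then for every `n ≥ M^(C ω(q))` a Steiner system `S(n,q,2)` exists iff (D) holds;

(2) if `q` has exactly two prime divisors and `S(m,q,2)` exists for a single `m ≥ q^C` which is
congruent neither to `1` nor to `q` modulo `q(q-1)`, then for every `n ≥ m^C` a Steiner system
`S(n,q,2)` exists iff (D) holds;

(3), (4) for all `q ≥ 2` the classes reached are closed under products and complements. -/
theorem result : ∃ C : ℕ,
    (∀ q : ℕ, 2 ≤ q → ∀ M : ℕ, ∀ S : Set ℕ, S.Nonempty →
      (∀ m ∈ S, q ^ C ≤ m ∧ m ≤ M ∧ Exists2 m q) →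
      (∀ p r : ℕ, p.Prime → r.Prime → p ∣ q → r ∣ q → p ≠ r → ∃ m ∈ S, (p ∣ m ↔ ¬ r ∣ m)) →
      ∀ n : ℕ, M ^ (C * q.primeFactors.card) ≤ n → (Exists2 n q ↔ CondD n q)) ∧
    (∀ q : ℕ, q.primeFactors.card = 2 → ∀ m : ℕ, q ^ C ≤ m → Exists2 m q →
      ¬ m ≡ 1 [MOD q * (q - 1)] → ¬ m ≡ q [MOD q * (q - 1)] →
      ∀ n : ℕ, m ^ C ≤ n → (Exists2 n q ↔ CondD n q)) ∧
    (∀ q : ℕ, 2 ≤ q → ∀ a b : ℕ, q ^ C ≤ a → q ^ C ≤ b → Exists2 a q → Exists2 b q →
      ∀ n : ℕ, (a * b) ^ C ≤ n → n ≡ a * b [MOD q * (q - 1)] → Exists2 n q) ∧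
    (∀ q : ℕ, 2 ≤ q → ∀ a : ℕ, q ^ C ≤ a → Exists2 a q →
      ∀ n : ℕ, a ^ C ≤ n → n + a ≡ q + 1 [MOD q * (q - 1)] → Exists2 n q) := by
  obtain ⟨K, hK⟩ := decide_sep
  obtain ⟨E, hE, hT, hP⟩ := consts
  -- the first statement with the exponent `K'`
  have key : ∀ C : ℕ, K ≤ C → ∀ q : ℕ, 2 ≤ q → ∀ M : ℕ, ∀ S : Set ℕ, S.Nonempty →
      (∀ m ∈ S, q ^ C ≤ m ∧ m ≤ M ∧ Exists2 m q) →
      (∀ p r : ℕ, p.Prime → r.Prime → p ∣ q → r ∣ q → p ≠ r → ∃ m ∈ S, (p ∣ m ↔ ¬ r ∣ m)) →
      ∀ n : ℕ, M ^ (K * q.primeFactors.card) ≤ n → (Exists2 n q ↔ CondD n q) := by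
    intro C hC q hq M S hS1 hS hsep n hn
    have hM0 : 0 < M := by
      obtain ⟨m0, hm0⟩ := hS1
      obtain ⟨h1, h2, -⟩ := hS m0 hm0
      have : 0 < q ^ C := Nat.pow_pos (by omega)
      omega
    have hn0 : 0 < n := lt_of_lt_of_le (Nat.pow_pos hM0) hn
    refine Pool.Agent.W855.steiner_iff hq hn0 fun h3 hadm => ?_
    refine hK q h3 M S hS1 (fun m hm => ?_) hsep n hn hadm
    obtain ⟨h1, h2, h4⟩ := hS m hm
    exact ⟨(Nat.pow_le_pow_right (by omega) hC).trans h1, h2, ig_of_ex h4⟩
  refine ⟨2 * K + (E + 3) * E, ?_, ?_, ?_, ?_⟩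
  · intro q hq M S hS1 hS hsep n hn
    refine key _ (by omega) q hq M S hS1 hS hsep n (le_trans ?_ hn)
    have hM0 : 0 < M := by
      obtain ⟨m0, hm0⟩ := hS1
      obtain ⟨h1, h2, -⟩ := hS m0 hm0
      have : 0 < q ^ (2 * K + (E + 3) * E) := Nat.pow_pos (by omega)
      omega
    exact Nat.pow_le_pow_right hM0 (Nat.mul_le_mul_right _ (by omega))
  · intro q hq2 m hm hSm h1 h2 n hn
    have hq : 2 ≤ q := by
      by_contra hc
      have : q = 0 ∨ q = 1 := by omega
      rcases this with rfl | rfl <;> simp at hq2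
    have hm0 : 0 < m := lt_of_lt_of_le (Nat.pow_pos (by omega)) hm
    have hadm : Adm q m := adm_of_ig hm0 (ig_of_ex hSm)
    refine key (2 * K + (E + 3) * E) (by omega) q hq m {m} ⟨m, rfl⟩ (by
      intro m' hm'
      rw [Set.mem_singleton_iff.1 hm']
      exact ⟨hm, le_rfl, hSm⟩) ?_ n (le_trans ?_ hn)
    · intro p r hp hr hpq hrq hpr
      refine ⟨m, rfl, ?_⟩
      have hall : ∀ s, s.Prime → s ∣ q → s = p ∨ s = r := by
        intro s hs hsq
        have h3 : ({p, r} : Finset ℕ) ⊆ q.primeFactors := by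
          intro x hx
          rcases Finset.mem_insert.1 hx with rfl | hx
          · exact Nat.mem_primeFactors.2 ⟨hp, hpq, by omega⟩
          · rw [Finset.mem_singleton.1 hx]
            exact Nat.mem_primeFactors.2 ⟨hr, hrq, by omega⟩
        have h4 : ({p, r} : Finset ℕ) = q.primeFactors :=
          Finset.eq_of_subset_of_card_le h3 (by rw [hq2, Finset.card_pair hpr])
        have h5 : s ∈ ({p, r} : Finset ℕ) := by
          rw [h4]; exact Nat.mem_primeFactors.2 ⟨hs, hsq, by omega⟩
        simpa using h5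
      by_contra hcon
      have hiff : p ∣ m ↔ r ∣ m := by tauto
      by_cases hpm : p ∣ m
      · apply h2
        refine class_eq hq hadm (adm_self (by omega)) ?_
        intro s hs hsq
        refine ⟨fun _ => hsq, fun _ => ?_⟩
        rcases hall s hs hsq with rfl | rfl
        · exact hpm
        · exact hiff.1 hpm
      · apply h1
        refine class_eq hq hadm (adm_one q) ?_
        intro s hs hsq
        refine ⟨fun h => ?_, fun h => absurd (Nat.dvd_one.1 h) hs.one_lt.ne'⟩
        exfalso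
        rcases hall s hs hsq with rfl | rfl
        · exact hpm h
        · exact hpm (hiff.2 h)
    · rw [hq2]
      exact Nat.pow_le_pow_right hm0 (by omega)
  · intro q hq a b ha hb hSa hSb n hn hmod
    rcases Nat.lt_or_ge q 3 with h3 | h3
    · have : q = 2 := by omega
      subst this
      exact steiner_two n
    · have hEC : E ≤ 2 * K + (E + 3) * E := by
        have : E ≤ (E + 3) * E := Nat.le_mul_of_pos_left _ (by omega)
        omega
      have ha0 : 0 < a := lt_of_lt_of_le (Nat.pow_pos (by omega)) ha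
      have hb0 : 0 < b := lt_of_lt_of_le (Nat.pow_pos (by omega)) hb
      have hqa : q ^ E ≤ a := (Nat.pow_le_pow_right (by omega) hEC).trans ha
      have hqb : q ^ (E - 1) ≤ b := (Nat.pow_le_pow_right (by omega) (by omega)).trans hb
      refine ex_of_ig (hP q h3 (a * b) (hqa.trans (Nat.le_mul_of_pos_right _ hb0))
        (ig_prod (hT q hq _ hqb) (ig_of_ex hSa) (ig_of_ex hSb)) n (le_trans ?_ hn) (Or.inl hmod))
      exact Nat.pow_le_pow_right (Nat.mul_pos ha0 hb0) hEC
  · intro q hq a ha hSa n hn hmod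
    rcases Nat.lt_or_ge q 3 with h3 | h3
    · have : q = 2 := by omega
      subst this
      exact steiner_two n
    · have hEC : (E + 3) * E ≤ 2 * K + (E + 3) * E := by omega
      have hEC' : E ≤ 2 * K + (E + 3) * E := by
        have : E ≤ (E + 3) * E := Nat.le_mul_of_pos_left _ (by omega)
        omega
      have ha0 : 0 < a := lt_of_lt_of_le (Nat.pow_pos (by omega)) ha
      have hqa : q ^ E ≤ a := (Nat.pow_le_pow_right (by omega) hEC').trans ha
      obtain ⟨u, v, hu, hv, hau, hav, huV, hvV, mu, mv⟩ := near hE hP h3 hqa (ig_of_ex hSa)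
      have hvC : q ^ (E - 1) < v := by
        have h5 : q ^ (E - 1) ≤ q ^ E := Nat.pow_le_pow_right (by omega) (by omega)
        omega
      have hI := compl (C := E - 1) hT hq ha0 (ig_of_ex hSa) hv hvC
      have hadm : Adm q a := adm_of_ig ha0 (ig_of_ex hSa)
      have h1v : 1 ≤ v - 1 := by omega
      refine ex_of_ig (hP q h3 (a * (v - 1) + 1) ?_ hI n (le_trans ?_ hn) (Or.inl ?_))
      · have : a * 1 ≤ a * (v - 1) := Nat.mul_le_mul_left a h1v
        omega
      · have h6 : a * (v - 1) + 1 ≤ a ^ (E + 3) := by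
          calc a * (v - 1) + 1 ≤ a * (v - 1) + a := by omega
            _ = a * v := by
              obtain ⟨w, rfl⟩ : ∃ w, v = w + 1 := ⟨v - 1, by omega⟩
              rw [Nat.add_sub_cancel]; ring
            _ ≤ a * a ^ (E + 2) := Nat.mul_le_mul_left a hvV
            _ = a ^ (E + 3) := by ring
        calc (a * (v - 1) + 1) ^ E ≤ (a ^ (E + 3)) ^ E := Nat.pow_le_pow_left h6 _
          _ = a ^ ((E + 3) * E) := by rw [← pow_mul]
          _ ≤ _ := Nat.pow_le_pow_right ha0 hEC
      · -- `a (v - 1) + 1 + a = a v + 1 ≡ a q + 1 ≡ q + 1`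
        have e : a * (v - 1) + 1 + a = a * v + 1 := by
          obtain ⟨w, rfl⟩ : ∃ w, v = w + 1 := ⟨v - 1, by omega⟩
          rw [Nat.add_sub_cancel]; ring
        have ha1 : a ≡ 1 [MOD q - 1] := ((Nat.modEq_iff_dvd' (by omega)).2 hadm.1).symm
        have h7 : a * q ≡ q [MOD q * (q - 1)] := by
          have := Nat.ModEq.mul_left' q ha1
          rw [mul_one, mul_comm q a] at this
          exact this
        have h8 : a * (v - 1) + 1 + a ≡ q + 1 [MOD q * (q - 1)] := by
          rw [e]
          exact Nat.ModEq.add_right 1 ((Nat.ModEq.mul_left a mv).trans h7)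
        exact Nat.ModEq.add_right_cancel' a (hmod.trans h8.symm)

end Pool.Agent.Results.MP_409a13_co.SeparatingSeeds
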